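import Pool.Agent.Helper92.TN.StN

/-!
# Project T3K, module K1T: the trace from level p to level one as a cusp form (all weights)
-/

set_option autoImplicit false

open UpperHalfPlane CongruenceSubgroup Matrix.SpecialLinearGroup
open scoped MatrixGroups ModularForm

namespace Pool.Agent.Helper84.TN

open Pool.Agent.Helper14.WK
open Pool.Agent.Helper14.CV (G0)
open Pool.Agent.Helper92.TN

/-- the matrix with rows 0 -1 and 1 j -/
private def ta (j : ℤ) : SL(2, ℤ) :=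
  ⟨!![0, -1; 1, j], by simp [Matrix.det_fin_two]⟩

private theorem mem0 (N : ℕ) (g : SL(2, ℤ)) : g ∈ Gamma0 N ↔ (N : ℤ) ∣ g 1 0 := by
  rw [Gamma0_mem, ZMod.intCast_zmod_eq_zero_iff_dvd]

private theorem mem1 (p : ℕ) (g : SL(2, ℤ)) : g ∈ Gamma0 (p ^ 0) := by
  rw [mem0]
  simp

private theorem G0_mem (N : ℕ) (g : SL(2, ℤ)) : mapGL ℝ g ∈ G0 N ↔ g ∈ Gamma0 N := by
  constructor
  · rintro ⟨γ, hγ, he⟩
    rw [mapGL_injective he] at hγ
    exact hγ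
  · intro h
    exact Subgroup.mem_map_of_mem _ h

private theorem ta_mul (j : ℤ) (g : SL(2, ℤ)) : (ta j * g) 1 0 = g 0 0 + j * g 1 0 := by
  rw [Matrix.SpecialLinearGroup.coe_mul, Matrix.mul_apply, Fin.sum_univ_two]
  simp [ta]

private theorem ta_inv00 (j : ℤ) : (ta j)⁻¹ 0 0 = j := by
  rw [Matrix.SpecialLinearGroup.coe_inv]
  simp [ta, Matrix.adjugate_fin_two]

private theorem ta_inv10 (j : ℤ) : (ta j)⁻¹ 1 0 = -1 := by
  rw [Matrix.SpecialLinearGroup.coe_inv]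
  simp [ta, Matrix.adjugate_fin_two]

private theorem ta10 (j : ℤ) : ta j 1 0 = 1 := by
  simp [ta]

/-- the representatives -/
private def rp (p : ℕ) : Option (Fin p) → SL(2, ℤ)
  | none => 1
  | some j => ta ((j : ℕ) : ℤ)

private theorem p_classes {p : ℕ} (hp : p.Prime) (g : SL(2, ℤ)) :
    ∃ j : Option (Fin p), rp p j * g ∈ Gamma0 (p ^ 1) := by
  by_cases h : (p : ℤ) ∣ g 1 0
  · refine ⟨none, ?_⟩
    rw [mem0]
    simpa [rp] using h
  · have hpZ : Prime (p : ℤ) := Nat.prime_iff_prime_int.1 hp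
    have hp0 : (0 : ℤ) < p := by exact_mod_cast hp.pos
    have hcop : IsCoprime (p : ℤ) (g 1 0) := (Prime.coprime_iff_not_dvd hpZ).2 h
    obtain ⟨u, v, huv⟩ := hcop
    set t : ℤ := (-(v * g 0 0)) % (p : ℤ) with ht
    have ht0 : 0 ≤ t := Int.emod_nonneg _ hp0.ne'
    have ht1 : t < p := Int.emod_lt_of_pos _ hp0
    obtain ⟨n, hn⟩ := Int.eq_ofNat_of_zero_le ht0
    have hnp : n < p := by
      rw [hn] at ht1
      exact_mod_cast ht1
    refine ⟨some ⟨n, hnp⟩, ?_⟩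
    have hdiv : (-(v * g 0 0)) = (p : ℤ) * ((-(v * g 0 0)) / (p : ℤ)) + t := by
      rw [ht]
      exact (Int.mul_ediv_add_emod _ _).symm
    set r : ℤ := (-(v * g 0 0)) / (p : ℤ) with hr
    have hn' : ((n : ℕ) : ℤ) = t := hn.symm
    rw [mem0]
    change ((p ^ 1 : ℕ) : ℤ) ∣ (ta ((n : ℕ) : ℤ) * g) 1 0
    rw [ta_mul, hn']
    refine ⟨u * g 0 0 - r * g 1 0, ?_⟩
    push_cast
    linear_combination (-(g 1 0)) * hdiv - (g 0 0) * huv

private theorem rp_inj {p : ℕ} (i j : Option (Fin p))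
    (h : (p : ℤ) ∣ (rp p i * (rp p j)⁻¹) 1 0) (hp : p.Prime) : i = j := by
  have hp2 : (2 : ℤ) ≤ p := by exact_mod_cast hp.two_le
  have h1 : ¬ (p : ℤ) ∣ 1 := by
    intro hd
    have := Int.le_of_dvd one_pos hd
    omega
  cases i with
  | none =>
    cases j with
    | none => rfl
    | some j =>
      exfalso
      change (p : ℤ) ∣ ((1 : SL(2, ℤ)) * (ta ((j : ℕ) : ℤ))⁻¹) 1 0 at h
      rw [one_mul, ta_inv10, Int.dvd_neg] at h
      exact h1 h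
  | some i =>
    cases j with
    | none =>
      exfalso
      change (p : ℤ) ∣ (ta ((i : ℕ) : ℤ) * (1 : SL(2, ℤ))⁻¹) 1 0 at h
      rw [inv_one, mul_one, ta10] at h
      exact h1 h
    | some j =>
      change (p : ℤ) ∣ (ta ((i : ℕ) : ℤ) * (ta ((j : ℕ) : ℤ))⁻¹) 1 0 at h
      rw [ta_mul, ta_inv00, ta_inv10] at h
      obtain ⟨c, hc⟩ := h
      have hi : ((i : ℕ) : ℤ) < p := by exact_mod_cast i.2
      have hj : ((j : ℕ) : ℤ) < p := by exact_mod_cast j.2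
      have hi0 : (0 : ℤ) ≤ ((i : ℕ) : ℤ) := Int.natCast_nonneg _
      have hj0 : (0 : ℤ) ≤ ((j : ℕ) : ℤ) := Int.natCast_nonneg _
      have hc0 : c = 0 := by
        have ha : c < 1 := by
          by_contra hcon
          push Not at hcon
          nlinarith
        have hb : -1 < c := by
          by_contra hcon
          push Not at hcon
          nlinarith
        omega
      rw [hc0] at hc
      congr 1
      apply Fin.ext
      omega

/-- Module K1T. -/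
theorem hK1T : K1T := by
  classical
  intro p hM hpM0 A f hp
  have hle : G0 (p ^ 0) ≤ 𝒮ℒ := by
    rintro _ ⟨γ, -, rfl⟩
    exact ⟨γ, rfl⟩
  have hfin : (G0 (p ^ 1)).IsFiniteRelIndex (G0 (p ^ 0)) :=
    Subgroup.isFiniteRelIndex_of_le_right _ hle
  refine ⟨CuspForm.trace (G0 (p ^ 0)) f, fun z hz => ?_⟩
  set S : Option (Fin p) → ↥(G0 (p ^ 0)) := fun j =>
    ⟨mapGL ℝ (rp p j), (G0_mem _ _).2 (mem1 p _)⟩ with hS
  let _ : Fintype (↥(G0 (p ^ 0)) ⧸ (G0 (p ^ 1)).subgroupOf (G0 (p ^ 0))) := Fintype.ofFinite _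
  have hmk : ∀ x y : ↥(G0 (p ^ 0)),
      (⟦x⟧ : ↥(G0 (p ^ 0)) ⧸ (G0 (p ^ 1)).subgroupOf (G0 (p ^ 0))) = ⟦y⟧ ↔
      ((x⁻¹ * y : ↥(G0 (p ^ 0))) : GL (Fin 2) ℝ) ∈ G0 (p ^ 1) := by
    intro x y
    rw [Quotient.eq, QuotientGroup.leftRel_apply, Subgroup.mem_subgroupOf]
  have hinj : Function.Injective (fun j : Option (Fin p) =>
      (⟦(S j)⁻¹⟧ : ↥(G0 (p ^ 0)) ⧸ (G0 (p ^ 1)).subgroupOf (G0 (p ^ 0)))) := by
    intro i j h
    simp only at h
    rw [hmk, inv_inv] at h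
    have h5 : (S i * (S j)⁻¹ : ↥(G0 (p ^ 0))) = (⟨mapGL ℝ (rp p i * (rp p j)⁻¹),
        (G0_mem _ _).2 (mem1 p _)⟩ : ↥(G0 (p ^ 0))) := by
      apply Subtype.ext
      change mapGL ℝ (rp p i) * (mapGL ℝ (rp p j))⁻¹ = mapGL ℝ (rp p i * (rp p j)⁻¹)
      rw [map_mul, map_inv]
    rw [h5] at h
    have h6 := (mem0 _ _).1 ((G0_mem _ _).1 h)
    rw [pow_one] at h6
    exact rp_inj i j h6 hp
  have hsurj : Function.Surjective (fun j : Option (Fin p) =>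
      (⟦(S j)⁻¹⟧ : ↥(G0 (p ^ 0)) ⧸ (G0 (p ^ 1)).subgroupOf (G0 (p ^ 0)))) := by
    intro q
    induction q using Quotient.inductionOn with
    | h x =>
      obtain ⟨x, γ, hγ, rfl⟩ := x
      obtain ⟨j, hj⟩ := p_classes hp γ
      refine ⟨j, ?_⟩
      simp only
      rw [hmk, inv_inv]
      have h5 : (S j * (⟨mapGL ℝ γ, γ, hγ, rfl⟩ : ↥(G0 (p ^ 0))) : ↥(G0 (p ^ 0))) =
          (⟨mapGL ℝ (rp p j * γ), (G0_mem _ _).2 (mem1 p _)⟩ : ↥(G0 (p ^ 0))) := by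
        apply Subtype.ext
        change mapGL ℝ (rp p j) * mapGL ℝ γ = mapGL ℝ (rp p j * γ)
        rw [map_mul]
      rw [h5]
      exact (G0_mem _ _).2 hj
  set w : ℍ := ⟨z, hz⟩ with hw
  have hwz : (w : ℂ) = z := rfl
  have e0 : ∀ (N : ℕ) (k : CuspForm (G0 N) (2 * A + 2)) (v : ℍ), fzK k (v : ℂ) = k v := by
    intro N k v
    unfold fzK
    rw [UpperHalfPlane.ofComplex_apply]
  have e2 : ∀ j : ℤ, ((f : ℍ → ℂ) ∣[(2 * (A : ℤ) + 2 : ℤ)] (mapGL ℝ (ta j))) w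
      = ((z + j) ^ (2 * A + 2))⁻¹ * fzK f (-1 / (z + j)) := by
    intro j
    refine (ModularForm.SL_slash_apply (k := (2 * (A : ℤ) + 2 : ℤ)) (f : ℍ → ℂ) (ta j) w).trans ?_
    have h6 : ((ta j • w : ℍ) : ℂ) = -1 / (z + j) := by
      rw [UpperHalfPlane.coe_specialLinearGroup_apply]
      simp [ta, hwz]
    have h7 : UpperHalfPlane.denom (ta j) w = z + j := by
      rw [ModularGroup.denom_apply]
      simp [ta, hwz]
    rw [← h6, e0, h7, mul_comm, zpow_neg]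
    have h8 : ∀ x : ℂ, x ^ (2 * (A : ℤ) + 2 : ℤ) = x ^ (2 * A + 2) := by
      intro x
      rw [← zpow_natCast]
      congr 1
    rw [h8]
  have hs : ∑ q : ↥(G0 (p ^ 0)) ⧸ (G0 (p ^ 1)).subgroupOf (G0 (p ^ 0)),
      SlashInvariantForm.quotientFunc f q
      = ∑ j : Option (Fin p), SlashInvariantForm.quotientFunc f
        (⟦(S j)⁻¹⟧ : ↥(G0 (p ^ 0)) ⧸ (G0 (p ^ 1)).subgroupOf (G0 (p ^ 0))) :=
    (Function.Bijective.sum_comp ⟨hinj, hsurj⟩ _).symm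
  have e1 : CuspForm.trace (G0 (p ^ 0)) f w
      = ∑ j : Option (Fin p), ((f : ℍ → ℂ) ∣[(2 * (A : ℤ) + 2 : ℤ)] (mapGL ℝ (rp p j))) w := by
    rw [CuspForm.coe_trace]
    refine (congrFun hs w).trans ?_
    rw [Finset.sum_apply]
    refine Finset.sum_congr rfl fun j _ => ?_
    rw [SlashInvariantForm.quotientFunc_mk, Subgroup.coe_inv, inv_inv]
  have e3 : ((f : ℍ → ℂ) ∣[(2 * (A : ℤ) + 2 : ℤ)] (mapGL ℝ (rp p none))) w = fzK f z := by
    change ((f : ℍ → ℂ) ∣[(2 * (A : ℤ) + 2 : ℤ)] (mapGL ℝ (1 : SL(2, ℤ)))) w = fzK f z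
    rw [map_one, SlashAction.slash_one, ← hwz, e0]
  rw [← hwz, e0, e1, Fintype.sum_option, e3, Finset.sum_range, hwz]
  congr 1
  refine Finset.sum_congr rfl fun j _ => ?_
  refine (e2 ((j : ℕ) : ℤ)).trans ?_
  push_cast
  rfl

end Pool.Agent.Helper84.TN
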